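import Pool.Agent.Helper32.PR.P3J

/-!
# Packet PR-P3: admissible sets of 3x3 frames contain all `1 + t E_01`
-/

set_option autoImplicit false

namespace Pool.Agent.Helper32.PR

open Matrix Filter Topology Pool.Agent.Helper71.PR

/-- all columns of the frames -/
def PP (Sg : Set (Mt 3)) : Set (Fin 3 → ℝ) := {v | ∃ x ∈ Sg, ∃ i, v = co x i}

/-- all planes of the frames -/
def LL (Sg : Set (Mt 3)) : Set (Fin 3 → ℝ) :=
  {φ | ∃ x ∈ Sg, ∃ c : ℝ, c ≠ 0 ∧ φ = c • crossProduct (co x 0) (co x 1)}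

theorem PP_smul {Sg : Set (Mt 3)} (hS : Adm (⊥ : Subgroup (SLn 3)) Sg) {v : Fin 3 → ℝ} (hv : v ∈ PP Sg)
    {c : ℝ} (hc : c ≠ 0) : c • v ∈ PP Sg := by
  obtain ⟨x, hx, i, rfl⟩ := hv
  exact ⟨x * diagonal fun _ => c, hS.diag x hx _ fun _ => hc, i, by rw [diag_col]⟩

theorem LL_smul {Sg : Set (Mt 3)} {v : Fin 3 → ℝ} (hv : v ∈ LL Sg) {c : ℝ} (hc : c ≠ 0) :
    c • v ∈ LL Sg := by
  obtain ⟨x, hx, c', hc', rfl⟩ := hv
  exact ⟨x, hx, c * c', mul_ne_zero hc hc', by rw [smul_smul]⟩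

theorem PP_cross (hJ : G_P3J) {Sg : Set (Mt 3)} (hS : Adm (⊥ : Subgroup (SLn 3)) Sg) {v w : Fin 3 → ℝ}
    (hv : v ∈ PP Sg) (hw : w ∈ PP Sg) (hvw : crossProduct v w ≠ 0) : crossProduct v w ∈ LL Sg := by
  obtain ⟨x, hx, i, rfl⟩ := hv
  obtain ⟨y, hy, j, rfl⟩ := hw
  obtain ⟨z, hz, h0, h2⟩ := (hJ Sg hS).1 x hx y hy i j hvw
  refine ⟨z.submatrix id (Equiv.swap 1 2), hS.perm z hz _, 1, one_ne_zero, ?_⟩
  have h0' : co z 0 = co x i := h0
  have h2' : co z 2 = co y j := h2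
  rw [one_smul, ← h0', ← h2']
  rfl

theorem LL_cross (hJ : G_P3J) {Sg : Set (Mt 3)} (hS : Adm (⊥ : Subgroup (SLn 3)) Sg) {v w : Fin 3 → ℝ}
    (hv : v ∈ LL Sg) (hw : w ∈ LL Sg) (hvw : crossProduct v w ≠ 0) : crossProduct v w ∈ PP Sg := by
  obtain ⟨x, hx, c, hc, rfl⟩ := hv
  obtain ⟨y, hy, c', hc', rfl⟩ := hw
  obtain ⟨σ, hσ1, hσ2⟩ : ∃ σ : Equiv.Perm (Fin 3), σ 1 = 0 ∧ σ 2 = 1 := by decide
  have e : crossProduct (c • crossProduct (co x 0) (co x 1)) (c' • crossProduct (co y 0) (co y 1)) =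
      (c * c') • crossProduct (crossProduct (co x 0) (co x 1)) (crossProduct (co y 0) (co y 1)) := by
    rw [map_smul, map_smul, LinearMap.smul_apply, smul_smul, mul_comm]
  rw [e] at hvw ⊢
  have c1 : co (y.submatrix id σ) 1 = co y 0 := by
    funext a
    show y a (σ 1) = y a 0
    rw [hσ1]
  have c2 : co (y.submatrix id σ) 2 = co y 1 := by
    funext a
    show y a (σ 2) = y a 1
    rw [hσ2]
  obtain ⟨z, hz, h1⟩ := (hJ Sg hS).2 x hx (y.submatrix id σ) (hS.perm y hy σ) (by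
    have h3 : crossProduct (crossProduct (co x 0) (co x 1))
        (crossProduct (co (y.submatrix id σ) 1) (co (y.submatrix id σ) 2)) ≠ 0 := by
      rw [c1, c2]
      intro h
      rw [h, smul_zero] at hvw
      exact hvw rfl
    exact h3)
  have h2 : co z 1 = crossProduct (crossProduct (co x 0) (co x 1))
      (crossProduct (co (y.submatrix id σ) 1) (co (y.submatrix id σ) 2)) := h1
  rw [c1, c2] at h2
  rw [← h2]
  exact PP_smul hS ⟨z, hz, 1, rfl⟩ (mul_ne_zero hc hc')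

theorem cross_cont : Continuous fun p : (Fin 3 → ℝ) × (Fin 3 → ℝ) => crossProduct p.1 p.2 := by
  simp only [cross_apply]
  refine continuous_pi fun i => ?_
  fin_cases i <;> simp <;> fun_prop

theorem cross_closure {A B : Set (Fin 3 → ℝ)}
    (h : ∀ v ∈ A, ∀ w ∈ A, crossProduct v w ≠ 0 → crossProduct v w ∈ B) {v w : Fin 3 → ℝ}
    (hv : v ∈ closure A) (hw : w ∈ closure A) (hvw : crossProduct v w ≠ 0) :
    crossProduct v w ∈ closure B := by
  obtain ⟨x, hx, hxv⟩ := mem_closure_iff_seq_limit.1 hv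
  obtain ⟨y, hy, hyw⟩ := mem_closure_iff_seq_limit.1 hw
  have h1 : Tendsto (fun m => crossProduct (x m) (y m)) atTop (𝓝 (crossProduct v w)) :=
    (cross_cont.tendsto (v, w)).comp (hxv.prodMk_nhds hyw)
  refine mem_closure_of_tendsto h1 ?_
  filter_upwards [h1.eventually_ne hvw] with m hm
  exact h _ (hx m) _ (hy m) hm

theorem cross_mul {d : Fin 3 → ℝ} (hd : ∀ i, d i ≠ 0) (v w : Fin 3 → ℝ) :
    crossProduct (d * v) (d * w) = (d 0 * d 1 * d 2) • (d⁻¹ * crossProduct v w) := by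
  have h0 := hd 0
  have h1 := hd 1
  have h2 := hd 2
  rw [cross_apply, cross_apply]
  ext i
  fin_cases i <;> simp <;> field_simp

/-- one step: a vector of the set gives a transvection -/
theorem step (hJ : G_P3J) (hL : G_LDU1) {Sg : Set (Mt 3)} (hS : Adm (⊥ : Subgroup (SLn 3)) Sg)
    (h1S : (1 : Mt 3) ∈ Sg) {v : Fin 3 → ℝ} (hv : v ∈ PP Sg) (hv1 : v 1 ≠ 0) :
    Matrix.transvection (0 : Fin 3) 1 (v 0 / v 1) ∈ Sg := by
  obtain ⟨x, hx, i, rfl⟩ := hv
  have e2 : co (1 : Mt 3) 2 = ![0, 0, 1] := by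
    funext a
    fin_cases a <;> simp [co, Matrix.one_apply]
  have e0 : co (1 : Mt 3) 0 = ![1, 0, 0] := by
    funext a
    fin_cases a <;> simp [co, Matrix.one_apply]
  have e1 : co (1 : Mt 3) 1 = ![0, 1, 0] := by
    funext a
    fin_cases a <;> simp [co, Matrix.one_apply]
  have hc : crossProduct (co x i) (co (1 : Mt 3) 2) ≠ 0 := by
    intro h
    have h3 := congrFun h 0
    rw [e2, cross_apply] at h3
    simp at h3
    exact hv1 h3
  obtain ⟨y, hy, hy0, hy2⟩ := (hJ Sg hS).1 x hx 1 h1S i 2 hc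
  have hy0' : co y 0 = co x i := hy0
  have hy2' : co y 2 = co (1 : Mt 3) 2 := hy2
  have c1 : co (y.submatrix id (Equiv.swap 0 1)) 1 = co x i := hy0'
  have c2 : co (y.submatrix id (Equiv.swap 0 1)) 2 = ![0, 0, 1] := by
    rw [← e2, ← hy2']
    rfl
  obtain ⟨z, hz, u, l, hu, hl, hld, hzx, hzy⟩ := join hL hS h1S (hS.perm y hy (Equiv.swap 0 1))
    (by
      rw [c1, c2, e0, cross_apply]
      simpa using hv1)
    (by
      rw [c2, e0, e1, cross_apply]
      simp)
  rw [one_mul] at hzx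
  have f2 : co z 2 = l 2 2 • ![0, 0, 1] := by
    rw [hzy, low_col2 hl, c2]
  have f1 : co z 1 = l 1 1 • co x i + l 2 1 • ![0, 0, 1] := by
    rw [hzy, low_col1 hl, c1, c2]
  have g1 : u 0 2 = 0 := by
    have := congrFun f2 0
    rw [hzx] at this
    simpa [co] using this
  have g2 : u 1 2 = 0 := by
    have := congrFun f2 1
    rw [hzx] at this
    simpa [co] using this
  have g3 : u 0 1 = l 1 1 * x 0 i := by
    have := congrFun f1 0
    rw [hzx] at this
    simpa [co] using this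
  have g4 : 1 = l 1 1 * x 1 i := by
    have := congrFun f1 1
    rw [hzx] at this
    have h5 : u 1 1 = l 1 1 * x 1 i := by simpa [co] using this
    rw [← h5, hu.1 1]
  have g5 : u 0 1 = co x i 0 / co x i 1 := by
    show u 0 1 = x 0 i / x 1 i
    have hv1' : x 1 i ≠ 0 := hv1
    rw [g3, eq_div_iff hv1', mul_assoc, mul_comm (x 0 i), ← mul_assoc, ← g4, one_mul]
  have key : Matrix.transvection (0 : Fin 3) 1 (co x i 0 / co x i 1) = z := by
    rw [hzx, ← g5]
    ext a b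
    rw [Matrix.transvection]
    fin_cases a <;> fin_cases b <;>
      simp [Matrix.single, hu.1, g1, g2, hu.2 1 0 (by decide), hu.2 2 0 (by decide),
        hu.2 2 1 (by decide)]
  rw [key]
  exact hz

theorem p3 (h1 : G_F3) (h2 : G_P3J) (h3 : G_LDU1) : G_P3 := by
  intro Sg hS h1S ⟨a, ha, haS⟩ ⟨b, hb, hbS⟩ t
  have e0 : (![1, 0, 0] : Fin 3 → ℝ) ∈ PP Sg := ⟨1, h1S, 0, by
    funext c
    fin_cases c <;> simp [co, Matrix.one_apply]⟩
  have e1 : (![0, 1, 0] : Fin 3 → ℝ) ∈ PP Sg := ⟨1, h1S, 1, by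
    funext c
    fin_cases c <;> simp [co, Matrix.one_apply]⟩
  have e2 : (![0, 0, 1] : Fin 3 → ℝ) ∈ PP Sg := ⟨1, h1S, 2, by
    funext c
    fin_cases c <;> simp [co, Matrix.one_apply]⟩
  have ep : (![a, 1, 0] : Fin 3 → ℝ) ∈ PP Sg := ⟨_, haS, 1, by
    funext c
    fin_cases c <;> simp [co, Matrix.transvection, Matrix.single]⟩
  have eq : (![0, b, 1] : Fin 3 → ℝ) ∈ PP Sg := ⟨_, hbS, 2, by
    funext c
    fin_cases c <;> simp [co, Matrix.transvection, Matrix.single]⟩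
  have f1 : (![1, -a, 0] : Fin 3 → ℝ) ∈ LL Sg := by
    have h4 : crossProduct (![a, 1, 0] : Fin 3 → ℝ) ![0, 0, 1] = ![1, -a, 0] := by
      rw [cross_apply]
      simp
    have h5 := PP_cross h2 hS ep e2 (by
      rw [h4]
      intro h
      have := congrFun h 0
      simp at this)
    rwa [h4] at h5
  have f2 : (![0, 1, -b] : Fin 3 → ℝ) ∈ LL Sg := by
    have h4 : crossProduct (![0, b, 1] : Fin 3 → ℝ) ![1, 0, 0] = ![0, 1, -b] := by
      rw [cross_apply]
      simp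
    have h5 := PP_cross h2 hS eq e0 (by
      rw [h4]
      intro h
      have := congrFun h 1
      simp at this)
    rwa [h4] at h5
  have ed : (![a * b, b, 1] : Fin 3 → ℝ) ∈ PP Sg := by
    have h4 : crossProduct (![1, -a, 0] : Fin 3 → ℝ) ![0, 1, -b] = ![a * b, b, 1] := by
      rw [cross_apply]
      simp
    have h5 := LL_cross h2 hS f1 f2 (by
      rw [h4]
      intro h
      have := congrFun h 2
      simp at this)
    rwa [h4] at h5
  -- the rescaling
  obtain ⟨d, hd⟩ : ∃ d : Fin 3 → ℝ, d = ![a * b, b, 1] := ⟨_, rfl⟩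
  have hd0 : ∀ i, d i ≠ 0 := by
    intro i
    rw [hd]
    fin_cases i
    · exact mul_ne_zero ha hb
    · exact hb
    · exact one_ne_zero
  have hdi : ∀ i, d⁻¹ i ≠ 0 := fun i => inv_ne_zero (hd0 i)
  have hdet : d 0 * d 1 * d 2 ≠ 0 := mul_ne_zero (mul_ne_zero (hd0 0) (hd0 1)) (hd0 2)
  have hdet' : d⁻¹ 0 * d⁻¹ 1 * d⁻¹ 2 ≠ 0 := mul_ne_zero (mul_ne_zero (hdi 0) (hdi 1)) (hdi 2)
  have hmne : ∀ {e v : Fin 3 → ℝ}, (∀ i, e i ≠ 0) → v ≠ 0 → e * v ≠ 0 := by
    intro e v he hv h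
    apply hv
    funext i
    have := congrFun h i
    exact (mul_eq_zero.1 this).resolve_left (he i)
  have hcs : ∀ {A : Set (Fin 3 → ℝ)}, (∀ v ∈ A, ∀ c : ℝ, c ≠ 0 → c • v ∈ A) → ∀ v ∈ closure A,
      ∀ c : ℝ, c ≠ 0 → c • v ∈ closure A := by
    intro A hA v hv c hc
    exact map_mem_closure (continuous_const_smul c) hv fun x hx => hA x hx c hc
  have hP : ∀ v ∈ PP Sg, ∀ c : ℝ, c ≠ 0 → c • v ∈ PP Sg := fun v hv c hc => PP_smul hS hv hc
  have hΛ : ∀ v ∈ LL Sg, ∀ c : ℝ, c ≠ 0 → c • v ∈ LL Sg := fun v hv c hc => LL_smul hv hc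
  have all := h1 {v | v ≠ 0 ∧ d * v ∈ closure (PP Sg)} {φ | φ ≠ 0 ∧ d⁻¹ * φ ∈ closure (LL Sg)}
    (fun h => h.1 rfl) (fun h => h.1 rfl)
    (by
      intro x y hx hxy hy
      refine ⟨hy, ?_⟩
      have h4 : Tendsto (fun m => d * x m) atTop (𝓝 (d * y)) := tendsto_const_nhds.mul hxy
      exact isClosed_closure.mem_of_tendsto h4 (Eventually.of_forall fun m => (hx m).2))
    (by
      rintro v ⟨hv, hv'⟩ c hc
      refine ⟨smul_ne_zero hc hv, ?_⟩
      rw [mul_smul_comm]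
      exact hcs hP _ hv' c hc)
    (by
      rintro v ⟨hv, hv'⟩ c hc
      refine ⟨smul_ne_zero hc hv, ?_⟩
      rw [mul_smul_comm]
      exact hcs hΛ _ hv' c hc)
    (by
      rintro v ⟨hv, hv'⟩ w ⟨hw, hw'⟩ hvw
      refine ⟨hvw, ?_⟩
      have h4 := cross_mul hd0 v w
      have h5 := cross_closure (B := LL Sg) (fun v hv w hw h => PP_cross h2 hS hv hw h) hv' hw' (by
        rw [h4]
        exact smul_ne_zero hdet (hmne hdi hvw))
      rw [h4] at h5
      have h6 := hcs hΛ _ h5 _ (inv_ne_zero hdet)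
      rwa [smul_smul, inv_mul_cancel₀ hdet, one_smul] at h6)
    (by
      rintro v ⟨hv, hv'⟩ w ⟨hw, hw'⟩ hvw
      refine ⟨hvw, ?_⟩
      have h4 := cross_mul hdi v w
      rw [inv_inv] at h4
      have h5 := cross_closure (B := PP Sg) (fun v hv w hw h => LL_cross h2 hS hv hw h) hv' hw' (by
        rw [h4]
        exact smul_ne_zero hdet' (hmne hd0 hvw))
      rw [h4] at h5
      have h6 := hcs hP _ h5 _ (inv_ne_zero hdet')
      rwa [smul_smul, inv_mul_cancel₀ hdet', one_smul] at h6)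
    (by
      refine ⟨fun h => by simpa using congrFun h 0, ?_⟩
      have h4 : d * ![1, 0, 0] = (a * b) • (![1, 0, 0] : Fin 3 → ℝ) := by
        rw [hd]
        funext c
        fin_cases c <;> simp
      rw [h4]
      exact subset_closure (hP _ e0 _ (mul_ne_zero ha hb)))
    (by
      refine ⟨fun h => by simpa using congrFun h 1, ?_⟩
      have h4 : d * ![0, 1, 0] = b • (![0, 1, 0] : Fin 3 → ℝ) := by
        rw [hd]
        funext c
        fin_cases c <;> simp
      rw [h4]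
      exact subset_closure (hP _ e1 _ hb))
    (by
      refine ⟨fun h => by simpa using congrFun h 2, ?_⟩
      have h4 : d * ![0, 0, 1] = (![0, 0, 1] : Fin 3 → ℝ) := by
        rw [hd]
        funext c
        fin_cases c <;> simp
      rw [h4]
      exact subset_closure e2)
    (by
      refine ⟨fun h => by simpa using congrFun h 2, ?_⟩
      have h4 : d * ![1, 1, 1] = (![a * b, b, 1] : Fin 3 → ℝ) := by
        rw [hd]
        funext c
        fin_cases c <;> simp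
      rw [h4]
      exact subset_closure ed)
  -- density
  have hv : (![t, 1, 0] : Fin 3 → ℝ) ∈ closure (PP Sg) := by
    have h4 := (all (d⁻¹ * ![t, 1, 0]) (hmne hdi fun h => by simpa using congrFun h 1)).2
    have h5 : d * (d⁻¹ * ![t, 1, 0]) = (![t, 1, 0] : Fin 3 → ℝ) := by
      funext c
      show d c * ((d c)⁻¹ * _) = _
      rw [← mul_assoc, mul_inv_cancel₀ (hd0 c), one_mul]
    rwa [h5] at h4
  obtain ⟨x, hx, hxv⟩ := mem_closure_iff_seq_limit.1 hv
  have t0 : Tendsto (fun m => x m 0) atTop (𝓝 t) := by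
    exact ((continuous_apply (0 : Fin 3)).tendsto _).comp hxv
  have t1 : Tendsto (fun m => x m 1) atTop (𝓝 1) := by
    exact ((continuous_apply (1 : Fin 3)).tendsto _).comp hxv
  have t2 : Tendsto (fun m => x m 0 / x m 1) atTop (𝓝 t) := by
    have := t0.div t1 one_ne_zero
    rwa [div_one] at this
  obtain ⟨N, hN⟩ := eventually_atTop.1 (t1.eventually_ne one_ne_zero)
  refine hS.cl (fun m => Matrix.transvection (0 : Fin 3) 1 (x (m + N) 0 / x (m + N) 1)) _
    (fun m => step h2 h3 hS h1S (hx _) (hN _ (by omega))) ?_ ?_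
  · have t3 : Tendsto (fun m => x (m + N) 0 / x (m + N) 1) atTop (𝓝 t) :=
      t2.comp (tendsto_add_atTop_nat N)
    have t4 : Continuous fun s : ℝ => Matrix.transvection (0 : Fin 3) 1 s := by
      unfold Matrix.transvection
      refine continuous_const.add ?_
      refine continuous_pi fun i => continuous_pi fun j => ?_
      show Continuous fun s : ℝ => Matrix.single (0 : Fin 3) (1 : Fin 3) s i j
      simp only [Matrix.single, Matrix.of_apply]
      split_ifs <;> fun_prop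
    exact (t4.tendsto t).comp t3
  · rw [Matrix.det_transvection_of_ne _ _ (by decide)]
    exact one_ne_zero

end Pool.Agent.Helper32.PR
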