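import Pool.Agent.Helper71.PR.Basic

/-!
# Packet PR-P3J: joins and intersections for admissible sets of 3x3 frames
-/

set_option autoImplicit false

namespace Pool.Agent.Helper32.PR

open Matrix Filter Topology Pool.Agent.Helper71.PR

/-- the column number `i` -/
abbrev co (x : Mt 3) (i : Fin 3) : Fin 3 → ℝ := fun a => x a i

theorem ld0 (Y : Mt 3) : ld 0 Y = Y 0 0 := by
  rw [ld_eq]
  exact Matrix.det_fin_one _

theorem ld1 (Y : Mt 3) : ld 1 Y = Y 0 0 * Y 1 1 - Y 0 1 * Y 1 0 := by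
  rw [ld_eq]
  exact Matrix.det_fin_two _

theorem ld2 (Y : Mt 3) : ld 2 Y = Y.det := by
  rw [ld_eq]
  rfl

theorem join (hL : G_LDU1) {Sg : Set (Mt 3)} (hS : Adm (⊥ : Subgroup (SLn 3)) Sg) {x y : Mt 3}
    (hx : x ∈ Sg) (hy : y ∈ Sg) (h1 : co x 0 ⬝ᵥ crossProduct (co y 1) (co y 2) ≠ 0)
    (h2 : co y 2 ⬝ᵥ crossProduct (co x 0) (co x 1) ≠ 0) :
    ∃ z ∈ Sg, ∃ u l : Mt 3, UppU u ∧ LowT l ∧ l.det ≠ 0 ∧ z = x * u ∧ z = y * l := by
  have hxd := hS.det x hx
  have hyd := hS.det y hy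
  obtain ⟨Y, hyx⟩ : ∃ Y : Mt 3, x = y * Y := ⟨y⁻¹ * x, by
    rw [← mul_assoc, Matrix.mul_nonsing_inv _ (isUnit_iff_ne_zero.2 hyd), one_mul]⟩
  have e1 : co x 0 ⬝ᵥ crossProduct (co y 1) (co y 2) = y.det * Y 0 0 := by
    rw [hyx, cross_apply, vec3_dotProduct, det_fin_three]
    simp only [co, Matrix.mul_apply, Fin.sum_univ_three, Matrix.cons_val]
    ring
  have e2 : co y 2 ⬝ᵥ crossProduct (co x 0) (co x 1) = y.det * (Y 0 0 * Y 1 1 - Y 0 1 * Y 1 0) := by
    rw [hyx, cross_apply, vec3_dotProduct, det_fin_three]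
    simp only [co, Matrix.mul_apply, Fin.sum_univ_three, Matrix.cons_val]
    ring
  rw [e1] at h1
  rw [e2] at h2
  have hYd : Y.det ≠ 0 := by
    intro h
    rw [hyx, Matrix.det_mul, h, mul_zero] at hxd
    exact hxd rfl
  have hld : ∀ j, ld j Y ≠ 0 := by
    intro j
    fin_cases j
    · show ld 0 Y ≠ 0
      rw [ld0]
      exact right_ne_zero_of_mul h1
    · show ld 1 Y ≠ 0
      rw [ld1]
      exact right_ne_zero_of_mul h2
    · show ld 2 Y ≠ 0
      rw [ld2]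
      exact hYd
  obtain ⟨L, U, d, hLo, hUp, hd, hYeq, -⟩ := hL 3 Y hld
  have hl : LowT (L * diagonal d) := hLo.lowT.mul (lowT_diagonal d)
  have hldet : (L * diagonal d).det ≠ 0 := by
    rw [Matrix.det_mul, hLo.det, one_mul, Matrix.det_diagonal]
    exact Finset.prod_ne_zero_iff.2 fun i _ => hd i
  have heq : x * U⁻¹ = y * (L * diagonal d) := by
    rw [hyx, hYeq, mul_assoc, mul_assoc, Matrix.mul_nonsing_inv _ hUp.isUnit, mul_one]
  exact ⟨x * U⁻¹, hS.s3 x hx y hy _ _ hUp.inv hl hldet heq, U⁻¹, L * diagonal d, hUp.inv, hl,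
    hldet, rfl, heq⟩

theorem exists_col {M : Mt 3} (hM : M.det ≠ 0) {w : Fin 3 → ℝ} (hw : w ≠ 0) :
    ∃ a, co M a ⬝ᵥ w ≠ 0 := by
  by_contra hcon
  push Not at hcon
  apply hw
  have h : Mᵀ *ᵥ w = 0 := by
    funext a
    exact hcon a
  exact Matrix.eq_zero_of_mulVec_eq_zero (by rwa [det_transpose]) h

theorem perm01 : ∀ i a : Fin 3, i ≠ a → ∃ σ : Equiv.Perm (Fin 3), σ 0 = i ∧ σ 1 = a := by
  decide

theorem perm21 : ∀ i a : Fin 3, i ≠ a → ∃ σ : Equiv.Perm (Fin 3), σ 2 = i ∧ σ 1 = a := by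
  decide

theorem upp_col0 {x u : Mt 3} (hu : UppU u) : co (x * u) 0 = co x 0 := by
  funext a
  show (x * u) a 0 = x a 0
  rw [Matrix.mul_apply, Fin.sum_univ_three, hu.1 0, hu.2 1 0 (by decide), hu.2 2 0 (by decide)]
  ring

theorem upp_col1 {x u : Mt 3} (hu : UppU u) : co (x * u) 1 = u 0 1 • co x 0 + co x 1 := by
  funext a
  show (x * u) a 1 = u 0 1 * x a 0 + x a 1
  rw [Matrix.mul_apply, Fin.sum_univ_three, hu.1 1, hu.2 2 1 (by decide)]
  ring

theorem low_col2 {y l : Mt 3} (hl : LowT l) : co (y * l) 2 = l 2 2 • co y 2 := by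
  funext a
  show (y * l) a 2 = l 2 2 * y a 2
  rw [Matrix.mul_apply, Fin.sum_univ_three, hl 0 2 (by decide), hl 1 2 (by decide)]
  ring

theorem low_col1 {y l : Mt 3} (hl : LowT l) : co (y * l) 1 = l 1 1 • co y 1 + l 2 1 • co y 2 := by
  funext a
  show (y * l) a 1 = l 1 1 * y a 1 + l 2 1 * y a 2
  rw [Matrix.mul_apply, Fin.sum_univ_three, hl 0 1 (by decide)]
  ring

theorem diag_col (x : Mt 3) (d : Fin 3 → ℝ) (i : Fin 3) : co (x * diagonal d) i = d i • co x i := by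
  funext a
  show (x * diagonal d) a i = d i * x a i
  rw [Matrix.mul_diagonal, mul_comm]

theorem p3j_a (hL : G_LDU1) {Sg : Set (Mt 3)} (hS : Adm (⊥ : Subgroup (SLn 3)) Sg) {x y : Mt 3}
    (hx : x ∈ Sg) (hy : y ∈ Sg) (i j : Fin 3) (hw : crossProduct (co x i) (co y j) ≠ 0) :
    ∃ z ∈ Sg, co z 0 = co x i ∧ co z 2 = co y j := by
  obtain ⟨a, ha⟩ := exists_col (hS.det x hx) hw
  obtain ⟨b, hb⟩ := exists_col (hS.det y hy) hw
  have hia : i ≠ a := by
    intro h
    rw [← h, dot_self_cross] at ha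
    exact ha rfl
  have hjb : j ≠ b := by
    intro h
    rw [← h, dot_cross_self] at hb
    exact hb rfl
  obtain ⟨σ, hσ0, hσ1⟩ := perm01 i a hia
  obtain ⟨τ, hτ2, hτ1⟩ := perm21 j b hjb
  have c0 : co (x.submatrix id σ) 0 = co x i := by
    funext c
    show x c (σ 0) = x c i
    rw [hσ0]
  have c1 : co (x.submatrix id σ) 1 = co x a := by
    funext c
    show x c (σ 1) = x c a
    rw [hσ1]
  have c2 : co (y.submatrix id τ) 2 = co y j := by
    funext c
    show y c (τ 2) = y c j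
    rw [hτ2]
  have c3 : co (y.submatrix id τ) 1 = co y b := by
    funext c
    show y c (τ 1) = y c b
    rw [hτ1]
  obtain ⟨z, hz, u, l, hu, hl, hld, hzx, hzy⟩ := join hL hS (hS.perm x hx σ) (hS.perm y hy τ)
    (by
      rw [c0, c2, c3, triple_product_permutation, ← cross_anticomm, dotProduct_neg]
      exact neg_ne_zero.2 hb)
    (by
      rw [c0, c1, c2, ← triple_product_permutation, ← cross_anticomm, dotProduct_neg]
      exact neg_ne_zero.2 ha)
  have hl2 := hl.diag_ne hld 2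
  refine ⟨z * diagonal ![1, 1, (l 2 2)⁻¹], hS.diag z hz _ ?_, ?_, ?_⟩
  · intro k
    fin_cases k
    · exact one_ne_zero
    · exact one_ne_zero
    · exact inv_ne_zero hl2
  · rw [diag_col, hzx, upp_col0 hu, c0]
    simp
  · rw [diag_col, hzy, low_col2 hl, c2, smul_smul]
    show ((l 2 2)⁻¹ * l 2 2) • co y j = co y j
    rw [inv_mul_cancel₀ hl2, one_smul]

theorem col_ne {z : Mt 3} (hz : z.det ≠ 0) (i : Fin 3) : co z i ≠ 0 := by
  intro h
  exact hz (Matrix.det_eq_zero_of_column_eq_zero i fun a => congrFun h a)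

theorem p3j_b (hL : G_LDU1) {Sg : Set (Mt 3)} (hS : Adm (⊥ : Subgroup (SLn 3)) Sg) {x y : Mt 3}
    (hx : x ∈ Sg) (hy : y ∈ Sg)
    (hw : crossProduct (crossProduct (co x 0) (co x 1)) (crossProduct (co y 1) (co y 2)) ≠ 0) :
    ∃ z ∈ Sg, co z 1 =
      crossProduct (crossProduct (co x 0) (co x 1)) (crossProduct (co y 1) (co y 2)) := by
  -- a column of `x` which is not in the second plane
  obtain ⟨x', hx', hφ, h1⟩ : ∃ x' ∈ Sg, (∃ s : ℝ, s ≠ 0 ∧
      crossProduct (co x' 0) (co x' 1) = s • crossProduct (co x 0) (co x 1)) ∧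
      co x' 0 ⬝ᵥ crossProduct (co y 1) (co y 2) ≠ 0 := by
    by_cases h : co x 0 ⬝ᵥ crossProduct (co y 1) (co y 2) = 0
    · refine ⟨x.submatrix id (Equiv.swap 0 1), hS.perm x hx _, ⟨-1, by norm_num, ?_⟩, ?_⟩
      · show crossProduct (co x 1) (co x 0) = _
        rw [← cross_anticomm]
        simp
      · show co x 1 ⬝ᵥ _ ≠ 0
        intro h'
        apply hw
        rw [cross_cross_eq_smul_sub_smul, h, h']
        simp
    · exact ⟨x, hx, ⟨1, one_ne_zero, (one_smul _ _).symm⟩, h⟩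
  obtain ⟨y', hy', hφ', h2⟩ : ∃ y' ∈ Sg, (∃ s : ℝ, s ≠ 0 ∧
      crossProduct (co y' 1) (co y' 2) = s • crossProduct (co y 1) (co y 2)) ∧
      co y' 2 ⬝ᵥ crossProduct (co x 0) (co x 1) ≠ 0 := by
    by_cases h : co y 2 ⬝ᵥ crossProduct (co x 0) (co x 1) = 0
    · refine ⟨y.submatrix id (Equiv.swap 1 2), hS.perm y hy _, ⟨-1, by norm_num, ?_⟩, ?_⟩
      · show crossProduct (co y 2) (co y 1) = _
        rw [← cross_anticomm]
        simp
      · show co y 1 ⬝ᵥ _ ≠ 0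
        intro h'
        apply hw
        rw [cross_cross_eq_smul_sub_smul', h', dotProduct_comm, h]
        simp
    · exact ⟨y, hy, ⟨1, one_ne_zero, (one_smul _ _).symm⟩, h⟩
  obtain ⟨s, hs, hφ⟩ := hφ
  obtain ⟨s', hs', hφ'⟩ := hφ'
  obtain ⟨z, hz, u, l, hu, hl, hld, hzx, hzy⟩ := join hL hS hx' hy'
    (by
      rw [hφ', dotProduct_smul]
      exact mul_ne_zero hs' h1)
    (by
      rw [hφ, dotProduct_smul]
      exact mul_ne_zero hs h2)
  have hz1 := col_ne (hS.det z hz) 1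
  -- the column is in both planes
  have o1 : co z 1 ⬝ᵥ crossProduct (co x 0) (co x 1) = 0 := by
    have h3 : co z 1 ⬝ᵥ crossProduct (co x' 0) (co x' 1) = 0 := by
      rw [hzx, upp_col1 hu, add_dotProduct, smul_dotProduct, dot_self_cross, dot_cross_self]
      simp
    rw [hφ, dotProduct_smul, smul_eq_mul] at h3
    exact (mul_eq_zero.1 h3).resolve_left hs
  have o2 : co z 1 ⬝ᵥ crossProduct (co y 1) (co y 2) = 0 := by
    have h3 : co z 1 ⬝ᵥ crossProduct (co y' 1) (co y' 2) = 0 := by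
      rw [hzy, low_col1 hl, add_dotProduct, smul_dotProduct, smul_dotProduct, dot_self_cross,
        dot_cross_self]
      simp
    rw [hφ', dotProduct_smul, smul_eq_mul] at h3
    exact (mul_eq_zero.1 h3).resolve_left hs'
  generalize crossProduct (co x 0) (co x 1) = φ at *
  generalize crossProduct (co y 1) (co y 2) = φ' at *
  have o3 : crossProduct (co z 1) (crossProduct φ φ') = 0 := by
    rw [cross_cross_eq_smul_sub_smul', dotProduct_comm φ, o1, o2]
    simp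
  have o4 : (co z 1 ⬝ᵥ crossProduct φ φ') • co z 1 = (co z 1 ⬝ᵥ co z 1) • crossProduct φ φ' := by
    have h3 := cross_cross_eq_smul_sub_smul' (co z 1) (co z 1) (crossProduct φ φ')
    rw [o3] at h3
    simp only [map_zero] at h3
    exact (sub_eq_zero.1 h3.symm)
  have o5 : co z 1 ⬝ᵥ co z 1 ≠ 0 := by
    intro h
    exact hz1 (dotProduct_self_eq_zero.1 h)
  have o6 : co z 1 ⬝ᵥ crossProduct φ φ' ≠ 0 := by
    intro h
    rw [h, zero_smul] at o4
    exact (smul_ne_zero o5 hw) o4.symm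
  refine ⟨z * diagonal ![1, (co z 1 ⬝ᵥ co z 1)⁻¹ * (co z 1 ⬝ᵥ crossProduct φ φ'), 1],
    hS.diag z hz _ ?_, ?_⟩
  · intro k
    fin_cases k
    · exact one_ne_zero
    · exact mul_ne_zero (inv_ne_zero o5) o6
    · exact one_ne_zero
  · rw [diag_col]
    show ((co z 1 ⬝ᵥ co z 1)⁻¹ * (co z 1 ⬝ᵥ crossProduct φ φ')) • co z 1 = _
    rw [← smul_smul, o4, smul_smul, inv_mul_cancel₀ o5, one_smul]

theorem p3j (h : G_LDU1) : G_P3J := by
  intro Sg hS
  exact ⟨fun x hx y hy i j hw => p3j_a h hS hx hy i j hw, fun x hx y hy hw => p3j_b h hS hx hy hw⟩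

end Pool.Agent.Helper32.PR
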